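import Pool.Agent.helper63.NU.Defs2
import Pool.Agent.helper41.NU.A2
import Pool.Agent.helper70.NU.A7
import Pool.Agent.helper69.NU.B1
import Pool.Agent.helper80.NU.B4

set_option autoImplicit false
set_option linter.all false

/-! Module C2: the weight `kφ - log det ∂∂̄φ`. -/

open MeasureTheory Filter Topology Set
open scoped ContDiff Manifold Matrix ENNReal ComplexOrder

noncomputable section

namespace Pool.Agent.helper63.NU

namespace C2

variable {n : ℕ}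

/-- the Hermitian form -/
def Q (A : Matrix (Fin n) (Fin n) ℂ) (v : Fin n → ℂ) : ℂ :=
  ∑ j, ∑ k, A j k * v j * (starRingEnd ℂ) (v k)

lemma Q_add (A B : Matrix (Fin n) (Fin n) ℂ) (v : Fin n → ℂ) :
    Q (A + B) v = Q A v + Q B v := by
  unfold Q
  simp only [Matrix.add_apply, add_mul, Finset.sum_add_distrib]

lemma Q_sub (A B : Matrix (Fin n) (Fin n) ℂ) (v : Fin n → ℂ) :
    Q (A - B) v = Q A v - Q B v := by
  unfold Q
  simp only [Matrix.sub_apply, sub_mul, Finset.sum_sub_distrib]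

lemma Q_smul (c : ℂ) (A : Matrix (Fin n) (Fin n) ℂ) (v : Fin n → ℂ) :
    Q (c • A) v = c * Q A v := by
  unfold Q
  simp only [Matrix.smul_apply, smul_eq_mul, Finset.mul_sum]
  refine Finset.sum_congr rfl fun j _ => Finset.sum_congr rfl fun k _ => ?_
  ring

lemma Q_vec_smul (A : Matrix (Fin n) (Fin n) ℂ) (t : ℝ) (v : Fin n → ℂ) :
    Q A (t • v) = ((t ^ 2 : ℝ) : ℂ) * Q A v := by
  unfold Q
  simp only [Finset.mul_sum, Pi.smul_apply, Complex.real_smul, map_mul, Complex.conj_ofReal]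
  refine Finset.sum_congr rfl fun j _ => Finset.sum_congr rfl fun k _ => ?_
  push_cast
  ring

lemma Q_norm_le (A : Matrix (Fin n) (Fin n) ℂ) (v : Fin n → ℂ) :
    ‖Q A v‖ ≤ (∑ j, ∑ k, ‖A j k‖) * ‖v‖ ^ 2 := by
  unfold Q
  rw [Finset.sum_mul]
  refine (norm_sum_le _ _).trans (Finset.sum_le_sum fun j _ => ?_)
  rw [Finset.sum_mul]
  refine (norm_sum_le _ _).trans (Finset.sum_le_sum fun k _ => ?_)
  rw [norm_mul, norm_mul, RCLike.norm_conj]
  have h1 : ‖v j‖ ≤ ‖v‖ := norm_le_pi_norm v j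
  have h2 : ‖v k‖ ≤ ‖v‖ := norm_le_pi_norm v k
  calc ‖A j k‖ * ‖v j‖ * ‖v k‖ = ‖A j k‖ * (‖v j‖ * ‖v k‖) := by ring
    _ ≤ ‖A j k‖ * (‖v‖ * ‖v‖) := by
        refine mul_le_mul_of_nonneg_left ?_ (norm_nonneg _)
        exact mul_le_mul h1 h2 (norm_nonneg _) (norm_nonneg _)
    _ = ‖A j k‖ * ‖v‖ ^ 2 := by ring

lemma Q_eq_dot (A : Matrix (Fin n) (Fin n) ℂ) (v : Fin n → ℂ) :
    Q A v = star (star v) ⬝ᵥ (A *ᵥ (star v)) := by
  unfold Q
  simp only [star_star, dotProduct, Matrix.mulVec, Finset.mul_sum, Pi.star_apply]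
  refine Finset.sum_congr rfl fun j _ => Finset.sum_congr rfl fun k _ => ?_
  simp only [RCLike.star_def]
  ring

lemma Q_pos {A : Matrix (Fin n) (Fin n) ℂ} (hA : A.PosDef) {v : Fin n → ℂ} (hv : v ≠ 0) :
    0 < (Q A v).re := by
  have h : star v ≠ 0 := by simpa using hv
  have h2 := hA.dotProduct_mulVec_pos h
  rw [← Q_eq_dot] at h2
  exact (Complex.lt_def.1 h2).1

lemma Q_nonneg {A : Matrix (Fin n) (Fin n) ℂ} (hA : A.PosDef) (v : Fin n → ℂ) :
    0 ≤ (Q A v).re := by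
  by_cases hv : v = 0
  · subst hv
    simp [Q]
  · exact (Q_pos hA hv).le

lemma Q_conj {A : Matrix (Fin n) (Fin n) ℂ} (hA : A.IsHermitian) (v : Fin n → ℂ) :
    (starRingEnd ℂ) (Q A v) = Q A v := by
  unfold Q
  simp only [map_sum, map_mul, Complex.conj_conj]
  rw [Finset.sum_comm]
  refine Finset.sum_congr rfl fun j _ => Finset.sum_congr rfl fun k _ => ?_
  have h : (starRingEnd ℂ) (A k j) = A j k := hA.apply j k
  rw [h]
  ring

lemma posDef_of_Q {A : Matrix (Fin n) (Fin n) ℂ} (hA : A.IsHermitian)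
    (h : ∀ v : Fin n → ℂ, v ≠ 0 → 0 < (Q A v).re) : A.PosDef := by
  refine Matrix.PosDef.of_dotProduct_mulVec_pos hA fun x hx => ?_
  have h1 : star x ≠ 0 := by simpa using hx
  have h2 := h (star x) h1
  have h3 : Q A (star x) = star x ⬝ᵥ (A *ᵥ x) := by
    have h := Q_eq_dot A (star x)
    simpa using h
  have h4 := Complex.conj_eq_iff_im.1 (Q_conj hA (star x))
  rw [← h3, Complex.lt_def]
  exact ⟨h2, by simpa using h4.symm⟩

lemma Q_continuous (A : Matrix (Fin n) (Fin n) ℂ) : Continuous (fun v => (Q A v).re) := by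
  unfold Q
  simp only [Complex.re_sum]
  fun_prop

lemma Q_trans {A A' D : Matrix (Fin n) (Fin n) ℂ}
    (h : ∀ j l, A j l = ∑ i, ∑ m, D i j * A' i m * (starRingEnd ℂ) (D m l)) (v : Fin n → ℂ) :
    Q A v = Q A' (D *ᵥ v) := by
  unfold Q
  have e1 : ∀ i m, A' i m * (D *ᵥ v) i * (starRingEnd ℂ) ((D *ᵥ v) m)
      = ∑ j, ∑ l, D i j * A' i m * (starRingEnd ℂ) (D m l) * v j * (starRingEnd ℂ) (v l) := by
    intro i m
    simp only [Matrix.mulVec, dotProduct, map_sum, map_mul, Finset.mul_sum, Finset.sum_mul]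
    rw [Finset.sum_comm]
    refine Finset.sum_congr rfl fun j _ => Finset.sum_congr rfl fun l _ => ?_
    ring
  simp only [e1, h, Finset.sum_mul]
  calc ∑ j, ∑ l, ∑ i, ∑ m, D i j * A' i m * (starRingEnd ℂ) (D m l) * v j * (starRingEnd ℂ) (v l)
      = ∑ j, ∑ i, ∑ l, ∑ m,
          D i j * A' i m * (starRingEnd ℂ) (D m l) * v j * (starRingEnd ℂ) (v l) :=
        Finset.sum_congr rfl fun j _ => Finset.sum_comm
    _ = ∑ i, ∑ j, ∑ l, ∑ m,
          D i j * A' i m * (starRingEnd ℂ) (D m l) * v j * (starRingEnd ℂ) (v l) :=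
        Finset.sum_comm
    _ = ∑ i, ∑ j, ∑ m, ∑ l,
          D i j * A' i m * (starRingEnd ℂ) (D m l) * v j * (starRingEnd ℂ) (v l) :=
        Finset.sum_congr rfl fun i _ => Finset.sum_congr rfl fun j _ => Finset.sum_comm
    _ = ∑ i, ∑ m, ∑ j, ∑ l,
          D i j * A' i m * (starRingEnd ℂ) (D m l) * v j * (starRingEnd ℂ) (v l) :=
        Finset.sum_congr rfl fun i _ => Finset.sum_comm

/-- uniform ellipticity at one point -/
lemma exists_lower {A : Matrix (Fin n) (Fin n) ℂ} (hA : A.PosDef) :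
    ∃ c > 0, ∀ v : Fin n → ℂ, c * ‖v‖ ^ 2 ≤ (Q A v).re := by
  by_cases hne : (Metric.sphere (0 : Fin n → ℂ) 1).Nonempty
  · obtain ⟨v0, hv0, hmin⟩ := (isCompact_sphere (0 : Fin n → ℂ) 1).exists_isMinOn hne
      (Q_continuous A).continuousOn
    have hv0n : ‖v0‖ = 1 := by simpa using hv0
    have hv0' : v0 ≠ 0 := by
      rintro rfl
      simp at hv0n
    refine ⟨(Q A v0).re, Q_pos hA hv0', fun v => ?_⟩
    by_cases hv : v = 0
    · subst hv
      simp [Q]
    have hvn : 0 < ‖v‖ := norm_pos_iff.2 hv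
    have h1 : (‖v‖⁻¹ • v) ∈ Metric.sphere (0 : Fin n → ℂ) 1 := by
      simp [norm_smul, hvn.ne']
    have h2 : (Q A v0).re ≤ (Q A (‖v‖⁻¹ • v)).re := hmin h1
    rw [Q_vec_smul, Complex.re_ofReal_mul] at h2
    have h3 : (‖v‖⁻¹) ^ 2 * ‖v‖ ^ 2 = 1 := by
      rw [← mul_pow, inv_mul_cancel₀ hvn.ne', one_pow]
    calc (Q A v0).re * ‖v‖ ^ 2 ≤ (‖v‖⁻¹ ^ 2 * (Q A v).re) * ‖v‖ ^ 2 :=
          mul_le_mul_of_nonneg_right h2 (sq_nonneg _)
      _ = (‖v‖⁻¹ ^ 2 * ‖v‖ ^ 2) * (Q A v).re := by ring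
      _ = (Q A v).re := by rw [h3, one_mul]
  · refine ⟨1, one_pos, fun v => ?_⟩
    have hv : v = 0 := by
      by_contra hv
      apply hne
      refine ⟨‖v‖⁻¹ • v, ?_⟩
      have hvn : 0 < ‖v‖ := norm_pos_iff.2 hv
      simp [norm_smul, hvn.ne']
    subst hv
    simp [Q]

/-- comparison of two continuous families of forms near a point -/
lemma local_comp {A U : E n → Matrix (Fin n) (Fin n) ℂ} {y0 : E n}
    (hA : ∀ j k, ContinuousAt (fun y => A y j k) y0) (hU : ∀ j k, ContinuousAt (fun y => U y j k) y0)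
    (hpos : (A y0).PosDef) :
    ∃ C > 0, ∀ᶠ y in 𝓝 y0, ∀ v : Fin n → ℂ, ‖Q (U y) v‖ ≤ C * (Q (A y) v).re := by
  obtain ⟨c, hc, hlow⟩ := exists_lower hpos
  have hA1 : ContinuousAt (fun y => ∑ j, ∑ k, ‖(A y - A y0) j k‖) y0 := by
    have : ∀ j k, ContinuousAt (fun y => ‖(A y - A y0) j k‖) y0 := fun j k => by
      simp only [Matrix.sub_apply]
      exact ((hA j k).sub continuousAt_const).norm
    exact tendsto_finset_sum _ fun j _ => tendsto_finset_sum _ fun k _ => this j k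
  have hU1 : ContinuousAt (fun y => ∑ j, ∑ k, ‖U y j k‖) y0 :=
    tendsto_finset_sum _ fun j _ => tendsto_finset_sum _ fun k _ => (hU j k).norm
  have e1 : ∀ᶠ y in 𝓝 y0, ∑ j, ∑ k, ‖(A y - A y0) j k‖ < c / 2 := by
    have h0 : ∑ j, ∑ k, ‖(A y0 - A y0) j k‖ < c / 2 := by simp; positivity
    exact hA1.eventually (gt_mem_nhds h0)
  set B : ℝ := (∑ j, ∑ k, ‖U y0 j k‖) + 1 with hB
  have hBpos : 0 < B := by
    have : 0 ≤ ∑ j, ∑ k, ‖U y0 j k‖ :=
      Finset.sum_nonneg fun j _ => Finset.sum_nonneg fun k _ => norm_nonneg _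
    linarith
  have e2 : ∀ᶠ y in 𝓝 y0, ∑ j, ∑ k, ‖U y j k‖ < B := by
    have h0 : ∑ j, ∑ k, ‖U y0 j k‖ < B := by linarith
    exact hU1.eventually (gt_mem_nhds h0)
  refine ⟨B / (c / 2), by positivity, ?_⟩
  filter_upwards [e1, e2] with y h1 h2 v
  have h3 : ‖Q (U y) v‖ ≤ B * ‖v‖ ^ 2 :=
    (Q_norm_le _ _).trans (mul_le_mul_of_nonneg_right h2.le (sq_nonneg _))
  have h4 : |(Q (A y) v).re - (Q (A y0) v).re| ≤ c / 2 * ‖v‖ ^ 2 := by
    have h5 : Q (A y - A y0) v = Q (A y) v - Q (A y0) v := Q_sub _ _ _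
    have h6 : |(Q (A y - A y0) v).re| ≤ ‖Q (A y - A y0) v‖ := Complex.abs_re_le_norm _
    rw [h5, Complex.sub_re] at h6
    refine h6.trans ?_
    rw [← h5]
    exact (Q_norm_le _ _).trans (mul_le_mul_of_nonneg_right h1.le (sq_nonneg _))
  have h7 := hlow v
  have h8 : c / 2 * ‖v‖ ^ 2 ≤ (Q (A y) v).re := by
    have := (abs_le.1 h4).1
    linarith
  calc ‖Q (U y) v‖ ≤ B * ‖v‖ ^ 2 := h3
    _ = B / (c / 2) * (c / 2 * ‖v‖ ^ 2) := by field_simp
    _ ≤ B / (c / 2) * (Q (A y) v).re := mul_le_mul_of_nonneg_left h8 (by positivity)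

variable {M : Type*} [TopologicalSpace M] [ChartedSpace (E n) M] [IsManifold 𝓘(ℂ, E n) ω M]

lemma lev_cont {k : ℕ} {ψ : Fam n M ℝ} (hψ : IsWeight k ψ) {e : Ch n M} (he : e ∈ atlas (E n) M)
    {y : E n} (hy : y ∈ e.target) (j l : Fin n) : ContinuousAt (fun y => lev (ψ e) y j l) y :=
  ((contDiffOn_lev e.open_target (hψ.smooth e he) j l).continuousOn).continuousAt
    (e.open_target.mem_nhds hy)

lemma Q_lev_trans {k : ℕ} {ψ : Fam n M ℝ} (hψ : IsWeight k ψ) {e e' : Ch n M}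
    (he : e ∈ atlas (E n) M) (he' : e' ∈ atlas (E n) M) {x : M} (hx : x ∈ e.source)
    (hx' : x ∈ e'.source) (v : Fin n → ℂ) :
    Q (lev (ψ e) (e x)) v = Q (lev (ψ e') (e' x)) ((Matrix.of fun i j =>
      fderiv ℂ (fun z => e' (e.symm z)) (e x) (Pi.single j 1) i) *ᵥ v) :=
  Q_trans (fun j l => lev_trans hψ he he' hx hx' j l) v

/-- global comparison of the Hessians of two weights -/
lemma global_comp [CompactSpace M] {φ U : Fam n M ℝ} {k k' : ℕ} (hφ : IsPos k φ)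
    (hU : IsWeight k' U) :
    ∃ C > 0, ∀ e ∈ atlas (E n) M, ∀ y ∈ e.target, ∀ v : Fin n → ℂ,
      ‖Q (lev (U e) y) v‖ ≤ C * (Q (lev (φ e) y) v).re := by
  have key : ∃ C > 0, ∀ x ∈ (Set.univ : Set M), ∀ e ∈ atlas (E n) M, x ∈ e.source →
      ∀ v : Fin n → ℂ, ‖Q (lev (U e) (e x)) v‖ ≤ C * (Q (lev (φ e) (e x)) v).re := by
    refine isCompact_univ.induction_on (p := fun S => ∃ C > 0, ∀ x ∈ S, ∀ e ∈ atlas (E n) M,
      x ∈ e.source → ∀ v : Fin n → ℂ,
        ‖Q (lev (U e) (e x)) v‖ ≤ C * (Q (lev (φ e) (e x)) v).re) ?_ ?_ ?_ ?_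
    · exact ⟨1, one_pos, fun x hx => absurd hx (Set.notMem_empty x)⟩
    · rintro S T hST ⟨C, hC, h⟩
      exact ⟨C, hC, fun x hx => h x (hST hx)⟩
    · rintro S T ⟨C, hC, h⟩ ⟨C', hC', h'⟩
      refine ⟨max C C', lt_max_of_lt_left hC, ?_⟩
      intro x hx e he hxe v
      have h0 : 0 ≤ (Q (lev (φ e) (e x)) v).re := Q_nonneg (hφ.pos e he _ (e.map_source hxe)) v
      rcases hx with hx | hx
      · exact (h x hx e he hxe v).trans (mul_le_mul_of_nonneg_right (le_max_left _ _) h0)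
      · exact (h' x hx e he hxe v).trans (mul_le_mul_of_nonneg_right (le_max_right _ _) h0)
    · intro x _
      have he := chart_mem_atlas (E n) x
      have hx := mem_chart_source (E n) x
      obtain ⟨C, hC, h⟩ := local_comp
        (A := fun y => lev (φ (chartAt (E n) x)) y) (U := fun y => lev (U (chartAt (E n) x)) y)
        (y0 := chartAt (E n) x x)
        (fun j k => lev_cont hφ.toIsWeight he ((chartAt (E n) x).map_source hx) j k)
        (fun j k => lev_cont hU he ((chartAt (E n) x).map_source hx) j k)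
        (hφ.pos _ he _ ((chartAt (E n) x).map_source hx))
      have h1 : ∀ᶠ x' in 𝓝 x, x' ∈ (chartAt (E n) x).source ∧ ∀ v : Fin n → ℂ,
          ‖Q (lev (U (chartAt (E n) x)) (chartAt (E n) x x')) v‖
            ≤ C * (Q (lev (φ (chartAt (E n) x)) (chartAt (E n) x x')) v).re := by
        have hs : ∀ᶠ x' in 𝓝 x, x' ∈ (chartAt (E n) x).source :=
          (chartAt (E n) x).open_source.mem_nhds hx
        exact hs.and (((chartAt (E n) x).continuousAt hx).eventually h)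
      refine ⟨_, mem_nhdsWithin_of_mem_nhds h1, C, hC, ?_⟩
      rintro x' ⟨hx', h2⟩ e' he' hxe' v
      rw [Q_lev_trans hU he' he hxe' hx' v, Q_lev_trans hφ.toIsWeight he' he hxe' hx' v]
      exact h2 _
  obtain ⟨C, hC, h⟩ := key
  refine ⟨C, hC, fun e he y hy v => ?_⟩
  have h1 := h (e.symm y) (Set.mem_univ _) e he (e.map_target hy) v
  rwa [e.right_inv hy] at h1

end C2

variable {n : ℕ} {M : Type*} [TopologicalSpace M] [ChartedSpace (E n) M]
  [IsManifold 𝓘(ℂ, E n) ω M]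
variable [CompactSpace M] [T2Space M]

lemma C2.det_re_pos {φ : Fam n M ℝ} (hφ : IsPos 1 φ) {e : Ch n M} (he : e ∈ atlas (E n) M)
    {y : E n} (hy : y ∈ e.target) : 0 < (lev (φ e) y).det.re :=
  (Complex.lt_def.1 (hφ.pos e he y hy).det_pos).1

theorem psik_isWeight {φ : Fam n M ℝ} (hφ : IsPos 1 φ) (k : ℕ) :
    IsWeight (k + 1) (psik k φ) := by
  refine ⟨fun e he => ?_, fun e he e' he' x hx => ?_⟩
  · unfold psik
    refine (contDiffOn_const.mul (hφ.smooth e he)).sub ?_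
    refine ContDiffOn.log ?_ (fun y hy => (C2.det_re_pos hφ he hy).ne')
    have h1 : ContDiffOn ℝ ∞ (fun y => (lev (φ e) y).det) e.target := by
      simp only [Matrix.det_apply]
      refine ContDiffOn.sum fun σ _ => ?_
      refine ContDiffOn.const_smul _ ?_
      exact contDiffOn_prod fun i _ => contDiffOn_lev e.open_target (hφ.smooth e he) _ _
    exact Complex.reCLM.contDiff.comp_contDiffOn h1
  · unfold psik
    have h1 := hφ.trans e he e' he' x hx
    have h2 := det_lev_trans hφ.toIsWeight he he' hx.1 hx.2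
    have h3 : (lev (φ e) (e x)).det.re
        = ‖jac e e' (e x)‖ ^ 2 * (lev (φ e') (e' x)).det.re := by
      rw [h2, Complex.re_ofReal_mul]
    have hj : ‖jac e e' (e x)‖ ^ 2 ≠ 0 := by
      have := jac_ne_zero he he' hx.1 hx.2
      positivity
    have hd := (C2.det_re_pos hφ he' (e'.map_source hx.2)).ne'
    rw [h3, Real.log_mul hj hd, h1]
    push_cast
    ring

/-- Module C2 -/
theorem psik_isPos {φ : Fam n M ℝ} (hφ : IsPos 1 φ) : ∃ k₀ : ℕ, ∀ k ≥ k₀,
    IsPos (k + 1) (psik k φ) ∧ ∀ e ∈ atlas (E n) M, ∀ y ∈ e.target, ∀ α : Fin n → ℂ,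
      (cn (lev (psik k φ e) y) α α).re ≤ 2 / k * (cn (lev (φ e) y) α α).re := by
  obtain ⟨C, hC, h⟩ := C2.global_comp hφ (psik_isWeight hφ 0)
  refine ⟨⌈2 * C⌉₊ + 1, fun k hk => ?_⟩
  have hkC : 2 * C ≤ k := by
    have h1 : (2 * C : ℝ) ≤ ⌈2 * C⌉₊ := Nat.le_ceil _
    have h2 : ((⌈2 * C⌉₊ + 1 : ℕ) : ℝ) ≤ k := by exact_mod_cast hk
    push_cast at h2
    linarith
  have hk0 : (0 : ℝ) < k := by linarith
  have hlev : ∀ e ∈ atlas (E n) M, ∀ y ∈ e.target,
      lev (psik k φ e) y = ((k : ℝ) : ℂ) • lev (φ e) y + lev (psik 0 φ e) y := by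
    intro e he y hy
    have c1 : ContDiffAt ℝ 2 (φ e) y :=
      ((hφ.smooth e he).contDiffAt (e.open_target.mem_nhds hy)).of_le (WithTop.coe_le_coe.2 (le_top : (2 : ℕ∞) ≤ ⊤))
    have c2 : ContDiffAt ℝ 2 (psik 0 φ e) y :=
      (((psik_isWeight hφ 0).smooth e he).contDiffAt (e.open_target.mem_nhds hy)).of_le
        (WithTop.coe_le_coe.2 (le_top : (2 : ℕ∞) ≤ ⊤))
    have e1 : psik k φ e = fun z => (k : ℝ) * φ e z + psik 0 φ e z := by
      funext z
      simp only [psik]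
      push_cast
      ring
    rw [e1, lev_add (contDiffAt_const.mul c1) c2, lev_const_mul _ c1]
  have hQ : ∀ e ∈ atlas (E n) M, ∀ y ∈ e.target, ∀ v : Fin n → ℂ,
      k / 2 * (C2.Q (lev (φ e) y) v).re ≤ (C2.Q (lev (psik k φ e) y) v).re := by
    intro e he y hy v
    rw [hlev e he y hy, C2.Q_add, C2.Q_smul, Complex.add_re, Complex.re_ofReal_mul]
    have h1 := h e he y hy v
    have h2 : -‖C2.Q (lev (psik 0 φ e) y) v‖ ≤ (C2.Q (lev (psik 0 φ e) y) v).re :=
      (abs_le.1 (Complex.abs_re_le_norm _)).1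
    have h3 : C * (C2.Q (lev (φ e) y) v).re ≤ k / 2 * (C2.Q (lev (φ e) y) v).re :=
      mul_le_mul_of_nonneg_right (by linarith) (C2.Q_nonneg (hφ.pos e he y hy) v)
    linarith
  have hpos : ∀ e ∈ atlas (E n) M, ∀ y ∈ e.target, (lev (psik k φ e) y).PosDef := by
    intro e he y hy
    refine C2.posDef_of_Q (lev_herm ?_) fun v hv => ?_
    · exact (((psik_isWeight hφ k).smooth e he).contDiffAt (e.open_target.mem_nhds hy)).of_le
        (WithTop.coe_le_coe.2 (le_top : (2 : ℕ∞) ≤ ⊤))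
    · have h1 := hQ e he y hy v
      have h2 := C2.Q_pos (hφ.pos e he y hy) hv
      have h3 : 0 < (k : ℝ) / 2 * (C2.Q (lev (φ e) y) v).re := by positivity
      linarith
  refine ⟨⟨psik_isWeight hφ k, hpos⟩, fun e he y hy α => ?_⟩
  have h1 := cn_mono (hφ.pos e he y hy) (c := (k : ℝ) / 2) (by positivity) (hpos e he y hy)
    (hQ e he y hy) α
  refine h1.trans (le_of_eq ?_)
  field_simp

theorem fn_pr_psik {φ : Fam n M ℝ} (hφ : IsPos 1 φ) (k : ℕ) (s t : Fam n M ℂ) (x : M) :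
    fn φ (pr (psik k φ) s t) x = hp k φ s t x * (dl φ x : ℂ) := by
  have hd := C2.det_re_pos hφ (chart_mem_atlas (E n) x)
    ((chartAt (E n) x).map_source (mem_chart_source (E n) x))
  unfold fn pr hp dl psik
  have e1 : -((k : ℝ) * φ (chartAt (E n) x) (chartAt (E n) x x) -
      Real.log (lev (φ (chartAt (E n) x)) (chartAt (E n) x x)).det.re)
      = -((k : ℝ) * φ (chartAt (E n) x) (chartAt (E n) x x)) +
      Real.log (lev (φ (chartAt (E n) x)) (chartAt (E n) x x)).det.re := by ring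
  rw [e1, Real.exp_add, Real.exp_log hd]
  push_cast
  ring

end Pool.Agent.helper63.NU
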