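import Pool.Agent.helper63.NU.Defs2

set_option autoImplicit false
set_option linter.all false

/-! Module D3b: convexity of `-log ∫ S_w^{-θ}` from a variance inequality. -/

open MeasureTheory Filter Topology Set
open scoped ContDiff Manifold Matrix ENNReal ComplexOrder

noncomputable section

namespace Pool.Agent.helper63.NU

namespace D3b

variable {X : Type*} {N : ℕ}

def S0 (P : Fin N → X → ℝ) (w : Fin N → ℝ) (x : X) : ℝ := ∑ j, Real.exp (w j) * P j x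

def S1 (P : Fin N → X → ℝ) (a w : Fin N → ℝ) (x : X) : ℝ :=
  ∑ j, a j * (Real.exp (w j) * P j x)

def S2 (P : Fin N → X → ℝ) (a w : Fin N → ℝ) (x : X) : ℝ :=
  ∑ j, a j ^ 2 * (Real.exp (w j) * P j x)

def W (w a : Fin N → ℝ) (t : ℝ) : Fin N → ℝ := fun j => w j + t * a j

def AA (a : Fin N → ℝ) : ℝ := ∑ j, |a j|

lemma AA_nonneg (a : Fin N → ℝ) : 0 ≤ AA a := Finset.sum_nonneg fun j _ => abs_nonneg _

lemma abs_le_AA (a : Fin N → ℝ) (j : Fin N) : |a j| ≤ AA a :=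
  Finset.single_le_sum (f := fun j => |a j|) (fun j _ => abs_nonneg _) (Finset.mem_univ j)

variable {P : Fin N → X → ℝ}

lemma S0_lb (hP0 : ∀ j x, 0 ≤ P j x) {c : ℝ} (hP1 : ∀ x, c ≤ ∑ j, P j x) {w : Fin N → ℝ} {R : ℝ}
    (hR : ∀ j, |w j| ≤ R) (x : X) : Real.exp (-R) * c ≤ S0 P w x := by
  calc Real.exp (-R) * c ≤ Real.exp (-R) * ∑ j, P j x :=
        mul_le_mul_of_nonneg_left (hP1 x) (Real.exp_pos _).le
    _ = ∑ j, Real.exp (-R) * P j x := by rw [Finset.mul_sum]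
    _ ≤ S0 P w x := by
        refine Finset.sum_le_sum fun j _ => ?_
        refine mul_le_mul_of_nonneg_right ?_ (hP0 j x)
        exact Real.exp_le_exp.2 (by have := abs_le.1 (hR j); linarith [this.1])

lemma S0_pos (hP0 : ∀ j x, 0 ≤ P j x) {c : ℝ} (hc : 0 < c) (hP1 : ∀ x, c ≤ ∑ j, P j x)
    (w : Fin N → ℝ) (x : X) : 0 < S0 P w x := by
  have h := S0_lb hP0 hP1 (w := w) (R := AA w) (fun j => abs_le_AA w j) x
  have h2 : 0 < Real.exp (-AA w) * c := mul_pos (Real.exp_pos _) hc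
  linarith

lemma S1_abs (hP0 : ∀ j x, 0 ≤ P j x) (a w : Fin N → ℝ) (x : X) :
    |S1 P a w x| ≤ AA a * S0 P w x := by
  unfold S1 S0
  calc |∑ j, a j * (Real.exp (w j) * P j x)| ≤ ∑ j, |a j * (Real.exp (w j) * P j x)| :=
        Finset.abs_sum_le_sum_abs _ _
    _ ≤ ∑ j, AA a * (Real.exp (w j) * P j x) := by
        refine Finset.sum_le_sum fun j _ => ?_
        have h0 : 0 ≤ Real.exp (w j) * P j x := mul_nonneg (Real.exp_pos _).le (hP0 j x)
        rw [abs_mul, abs_of_nonneg h0]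
        exact mul_le_mul_of_nonneg_right (abs_le_AA a j) h0
    _ = AA a * ∑ j, Real.exp (w j) * P j x := by rw [Finset.mul_sum]

lemma S2_abs (hP0 : ∀ j x, 0 ≤ P j x) (a w : Fin N → ℝ) (x : X) :
    |S2 P a w x| ≤ AA a ^ 2 * S0 P w x := by
  unfold S2 S0
  calc |∑ j, a j ^ 2 * (Real.exp (w j) * P j x)|
      ≤ ∑ j, |a j ^ 2 * (Real.exp (w j) * P j x)| :=
        Finset.abs_sum_le_sum_abs _ _
    _ ≤ ∑ j, AA a ^ 2 * (Real.exp (w j) * P j x) := by
        refine Finset.sum_le_sum fun j _ => ?_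
        have h0 : 0 ≤ Real.exp (w j) * P j x := mul_nonneg (Real.exp_pos _).le (hP0 j x)
        rw [abs_mul, abs_of_nonneg h0, abs_of_nonneg (sq_nonneg (a j))]
        refine mul_le_mul_of_nonneg_right ?_ h0
        rw [← sq_abs (a j)]
        exact pow_le_pow_left₀ (abs_nonneg _) (abs_le_AA a j) 2
    _ = AA a ^ 2 * ∑ j, Real.exp (w j) * P j x := by rw [Finset.mul_sum]

lemma W_bound (w a : Fin N → ℝ) {t t0 : ℝ} (ht : t ∈ Metric.ball t0 1) (j : Fin N) :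
    |W w a t j| ≤ AA w + (|t0| + 1) * AA a := by
  have h1 : |t| ≤ |t0| + 1 := by
    have h2 : |t - t0| < 1 := by simpa [Real.dist_eq] using ht
    have h3 : |t| ≤ |t - t0| + |t0| := by
      calc |t| = |(t - t0) + t0| := by ring_nf
        _ ≤ |t - t0| + |t0| := abs_add_le _ _
    linarith
  calc |W w a t j| ≤ |w j| + |t * a j| := abs_add_le _ _
    _ = |w j| + |t| * |a j| := by rw [abs_mul]
    _ ≤ AA w + (|t0| + 1) * AA a := by
        have h4 := abs_le_AA w j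
        have h5 : |t| * |a j| ≤ (|t0| + 1) * AA a :=
          mul_le_mul h1 (abs_le_AA a j) (abs_nonneg _) (by positivity)
        linarith

lemma S0_deriv (w a : Fin N → ℝ) (x : X) (t : ℝ) :
    HasDerivAt (fun t => S0 P (W w a t) x) (S1 P a (W w a t) x) t := by
  unfold S0 S1 W
  have h : ∀ j ∈ (Finset.univ : Finset (Fin N)),
      HasDerivAt (fun t => Real.exp (w j + t * a j) * P j x)
        (a j * (Real.exp (w j + t * a j) * P j x)) t := by
    intro j _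
    have h1 : HasDerivAt (fun t : ℝ => w j + t * a j) (a j) t := by
      simpa using ((hasDerivAt_id t).mul_const (a j)).const_add (w j)
    have h2 := (h1.exp).mul_const (P j x)
    have e : Real.exp (w j + t * a j) * a j * P j x
        = a j * (Real.exp (w j + t * a j) * P j x) := by ring
    rw [e] at h2
    exact h2
  have := HasDerivAt.sum h
  have e2 : (fun t => ∑ j, Real.exp (w j + t * a j) * P j x)
      = ∑ j, fun t => Real.exp (w j + t * a j) * P j x := by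
    funext t
    simp
  rw [e2]
  exact this

lemma S1_deriv (w a : Fin N → ℝ) (x : X) (t : ℝ) :
    HasDerivAt (fun t => S1 P a (W w a t) x) (S2 P a (W w a t) x) t := by
  unfold S1 S2 W
  have h : ∀ j ∈ (Finset.univ : Finset (Fin N)),
      HasDerivAt (fun t => a j * (Real.exp (w j + t * a j) * P j x))
        (a j ^ 2 * (Real.exp (w j + t * a j) * P j x)) t := by
    intro j _
    have h1 : HasDerivAt (fun t : ℝ => w j + t * a j) (a j) t := by
      simpa using ((hasDerivAt_id t).mul_const (a j)).const_add (w j)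
    have h2 := ((h1.exp).mul_const (P j x)).const_mul (a j)
    have e : a j * (Real.exp (w j + t * a j) * a j * P j x)
        = a j ^ 2 * (Real.exp (w j + t * a j) * P j x) := by ring
    rw [e] at h2
    exact h2
  have := HasDerivAt.sum h
  have e2 : (fun t => ∑ j, a j * (Real.exp (w j + t * a j) * P j x))
      = ∑ j, fun t => a j * (Real.exp (w j + t * a j) * P j x) := by
    funext t
    simp
  rw [e2]
  exact this

/-- derivative of `S^{-θ}` -/
lemma pow_deriv (hP0 : ∀ j x, 0 ≤ P j x) {c : ℝ} (hc : 0 < c) (hP1 : ∀ x, c ≤ ∑ j, P j x)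
    (θ : ℝ) (w a : Fin N → ℝ) (x : X) (t : ℝ) :
    HasDerivAt (fun t => S0 P (W w a t) x ^ (-θ))
      (-θ * (S1 P a (W w a t) x / S0 P (W w a t) x * S0 P (W w a t) x ^ (-θ))) t := by
  have hpos := S0_pos hP0 hc hP1 (W w a t) x
  have h := (S0_deriv (P := P) w a x t).rpow_const (p := -θ) (Or.inl hpos.ne')
  have e : S1 P a (W w a t) x * (-θ) * S0 P (W w a t) x ^ (-θ - 1)
      = -θ * (S1 P a (W w a t) x / S0 P (W w a t) x * S0 P (W w a t) x ^ (-θ)) := by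
    rw [Real.rpow_sub_one hpos.ne']
    field_simp
  rw [e] at h
  exact h

/-- derivative of `(S1/S) S^{-θ}` -/
lemma pow_deriv2 (hP0 : ∀ j x, 0 ≤ P j x) {c : ℝ} (hc : 0 < c) (hP1 : ∀ x, c ≤ ∑ j, P j x)
    (θ : ℝ) (w a : Fin N → ℝ) (x : X) (t : ℝ) :
    HasDerivAt (fun t => S1 P a (W w a t) x / S0 P (W w a t) x * S0 P (W w a t) x ^ (-θ))
      ((S2 P a (W w a t) x / S0 P (W w a t) x - (S1 P a (W w a t) x / S0 P (W w a t) x) ^ 2) *
        S0 P (W w a t) x ^ (-θ) -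
        θ * ((S1 P a (W w a t) x / S0 P (W w a t) x) ^ 2 * S0 P (W w a t) x ^ (-θ))) t := by
  have hpos := S0_pos hP0 hc hP1 (W w a t) x
  have h := ((S1_deriv (P := P) w a x t).div (S0_deriv (P := P) w a x t) hpos.ne').mul
    (pow_deriv hP0 hc hP1 θ w a x t)
  refine h.congr_deriv ?_
  simp only [Pi.div_apply]
  field_simp
  ring

/-! ### Bounds and measurability -/

lemma S0_meas [MeasurableSpace X] (hP : ∀ j, Measurable (P j)) (w : Fin N → ℝ) :
    Measurable (S0 P w) := by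
  unfold S0
  fun_prop

lemma S1_meas [MeasurableSpace X] (hP : ∀ j, Measurable (P j)) (a w : Fin N → ℝ) :
    Measurable (S1 P a w) := by
  unfold S1
  fun_prop

lemma S2_meas [MeasurableSpace X] (hP : ∀ j, Measurable (P j)) (a w : Fin N → ℝ) :
    Measurable (S2 P a w) := by
  unfold S2
  fun_prop

/-- integrand of the derivative -/
def G1 (P : Fin N → X → ℝ) (θ : ℝ) (a w : Fin N → ℝ) (x : X) : ℝ :=
  S1 P a w x / S0 P w x * S0 P w x ^ (-θ)

/-- second integrand -/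
def G2 (P : Fin N → X → ℝ) (θ : ℝ) (a w : Fin N → ℝ) (x : X) : ℝ :=
  (S1 P a w x / S0 P w x) ^ 2 * S0 P w x ^ (-θ)

/-- third integrand -/
def G3 (P : Fin N → X → ℝ) (θ : ℝ) (a w : Fin N → ℝ) (x : X) : ℝ :=
  (S2 P a w x / S0 P w x - (S1 P a w x / S0 P w x) ^ 2) * S0 P w x ^ (-θ)

lemma m1_abs (hP0 : ∀ j x, 0 ≤ P j x) {c : ℝ} (hc : 0 < c) (hP1 : ∀ x, c ≤ ∑ j, P j x)
    (a w : Fin N → ℝ) (x : X) : |S1 P a w x / S0 P w x| ≤ AA a := by
  have hpos := S0_pos hP0 hc hP1 w x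
  rw [abs_div, abs_of_pos hpos, div_le_iff₀ hpos]
  exact S1_abs hP0 a w x

lemma m2_abs (hP0 : ∀ j x, 0 ≤ P j x) {c : ℝ} (hc : 0 < c) (hP1 : ∀ x, c ≤ ∑ j, P j x)
    (a w : Fin N → ℝ) (x : X) : |S2 P a w x / S0 P w x| ≤ AA a ^ 2 := by
  have hpos := S0_pos hP0 hc hP1 w x
  rw [abs_div, abs_of_pos hpos, div_le_iff₀ hpos]
  exact S2_abs hP0 a w x

lemma pow_bd (hP0 : ∀ j x, 0 ≤ P j x) {c : ℝ} (hc : 0 < c) (hP1 : ∀ x, c ≤ ∑ j, P j x)
    {θ : ℝ} (hθ : 0 < θ) {w : Fin N → ℝ} {R : ℝ} (hR : ∀ j, |w j| ≤ R) (x : X) :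
    |S0 P w x ^ (-θ)| ≤ (Real.exp (-R) * c) ^ (-θ) := by
  have hpos := S0_pos hP0 hc hP1 w x
  rw [abs_of_nonneg (Real.rpow_nonneg hpos.le _)]
  exact Real.rpow_le_rpow_of_nonpos (mul_pos (Real.exp_pos _) hc) (S0_lb hP0 hP1 hR x)
    (by linarith)

lemma G1_bd (hP0 : ∀ j x, 0 ≤ P j x) {c : ℝ} (hc : 0 < c) (hP1 : ∀ x, c ≤ ∑ j, P j x)
    {θ : ℝ} (hθ : 0 < θ) (a : Fin N → ℝ) {w : Fin N → ℝ} {R : ℝ} (hR : ∀ j, |w j| ≤ R) (x : X) :
    |G1 P θ a w x| ≤ AA a * (Real.exp (-R) * c) ^ (-θ) := by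
  unfold G1
  rw [abs_mul]
  exact mul_le_mul (m1_abs hP0 hc hP1 a w x) (pow_bd hP0 hc hP1 hθ hR x) (abs_nonneg _)
    (AA_nonneg a)

lemma G2_bd (hP0 : ∀ j x, 0 ≤ P j x) {c : ℝ} (hc : 0 < c) (hP1 : ∀ x, c ≤ ∑ j, P j x)
    {θ : ℝ} (hθ : 0 < θ) (a : Fin N → ℝ) {w : Fin N → ℝ} {R : ℝ} (hR : ∀ j, |w j| ≤ R) (x : X) :
    |G2 P θ a w x| ≤ AA a ^ 2 * (Real.exp (-R) * c) ^ (-θ) := by
  unfold G2
  rw [abs_mul, abs_pow]
  exact mul_le_mul (pow_le_pow_left₀ (abs_nonneg _) (m1_abs hP0 hc hP1 a w x) 2)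
    (pow_bd hP0 hc hP1 hθ hR x) (abs_nonneg _) (by have := AA_nonneg a; positivity)

lemma G3_bd (hP0 : ∀ j x, 0 ≤ P j x) {c : ℝ} (hc : 0 < c) (hP1 : ∀ x, c ≤ ∑ j, P j x)
    {θ : ℝ} (hθ : 0 < θ) (a : Fin N → ℝ) {w : Fin N → ℝ} {R : ℝ} (hR : ∀ j, |w j| ≤ R) (x : X) :
    |G3 P θ a w x| ≤ (AA a ^ 2 + AA a ^ 2) * (Real.exp (-R) * c) ^ (-θ) := by
  unfold G3
  rw [abs_mul]
  refine mul_le_mul ?_ (pow_bd hP0 hc hP1 hθ hR x) (abs_nonneg _)
    (by have := AA_nonneg a; positivity)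
  refine (abs_sub _ _).trans (add_le_add (m2_abs hP0 hc hP1 a w x) ?_)
  rw [abs_pow]
  exact pow_le_pow_left₀ (abs_nonneg _) (m1_abs hP0 hc hP1 a w x) 2

lemma pow_meas [MeasurableSpace X] (hP : ∀ j, Measurable (P j)) (θ : ℝ) (w : Fin N → ℝ) :
    Measurable (fun x => S0 P w x ^ (-θ)) :=
  (S0_meas hP w).pow_const _

lemma G1_meas [MeasurableSpace X] (hP : ∀ j, Measurable (P j)) (θ : ℝ) (a w : Fin N → ℝ) :
    Measurable (G1 P θ a w) :=
  ((S1_meas hP a w).div (S0_meas hP w)).mul (pow_meas hP θ w)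

lemma G2_meas [MeasurableSpace X] (hP : ∀ j, Measurable (P j)) (θ : ℝ) (a w : Fin N → ℝ) :
    Measurable (G2 P θ a w) :=
  (((S1_meas hP a w).div (S0_meas hP w)).pow_const 2).mul (pow_meas hP θ w)

lemma G3_meas [MeasurableSpace X] (hP : ∀ j, Measurable (P j)) (θ : ℝ) (a w : Fin N → ℝ) :
    Measurable (G3 P θ a w) :=
  (((S2_meas hP a w).div (S0_meas hP w)).sub
    (((S1_meas hP a w).div (S0_meas hP w)).pow_const 2)).mul (pow_meas hP θ w)

lemma int_of_bd [MeasurableSpace X] {ν : Measure X} [IsFiniteMeasure ν] {f : X → ℝ}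
    (hf : Measurable f) {B : ℝ} (hB : ∀ x, |f x| ≤ B) : Integrable f ν :=
  Integrable.of_bound hf.aestronglyMeasurable B (Eventually.of_forall fun x => by
    simpa [Real.norm_eq_abs] using hB x)

/-- general differentiation lemma -/
lemma deriv_int [MeasurableSpace X] {ν : Measure X} [IsFiniteMeasure ν]
    {h h' : ℝ → X → ℝ} {t0 B : ℝ} (hm : ∀ t, Measurable (h t)) (hm' : ∀ t, Measurable (h' t))
    {B0 : ℝ} (h0 : ∀ x, |h t0 x| ≤ B0)
    (hB : ∀ t ∈ Metric.ball t0 1, ∀ x, |h' t x| ≤ B)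
    (hd : ∀ t x, HasDerivAt (fun t => h t x) (h' t x) t) :
    HasDerivAt (fun t => ∫ x, h t x ∂ν) (∫ x, h' t0 x ∂ν) t0 := by
  have := (hasDerivAt_integral_of_dominated_loc_of_deriv_le (μ := ν) (F := h) (F' := h')
    (x₀ := t0) (s := Metric.ball t0 1) (bound := fun _ => B)
    (Metric.ball_mem_nhds t0 one_pos)
    (Eventually.of_forall fun t => (hm t).aestronglyMeasurable)
    (int_of_bd (hm t0) h0) (hm' t0).aestronglyMeasurable
    (Eventually.of_forall fun x t ht => by simpa [Real.norm_eq_abs] using hB t ht x)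
    (integrable_const B) (Eventually.of_forall fun x t _ => hd t x)).2
  exact this

section main

variable [MeasurableSpace X] {ν : Measure X} [IsProbabilityMeasure ν]

def g (P : Fin N → X → ℝ) (ν : Measure X) (θ : ℝ) (w : Fin N → ℝ) : ℝ :=
  ∫ x, S0 P w x ^ (-θ) ∂ν

lemma ball_self (t : ℝ) : t ∈ Metric.ball t (1 : ℝ) := Metric.mem_ball_self one_pos

lemma g_deriv (hP : ∀ j, Measurable (P j)) (hP0 : ∀ j x, 0 ≤ P j x) {c : ℝ} (hc : 0 < c)
    (hP1 : ∀ x, c ≤ ∑ j, P j x) {θ : ℝ} (hθ : 0 < θ) (w a : Fin N → ℝ) (t : ℝ) :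
    HasDerivAt (fun t => g P ν θ (W w a t)) (-θ * ∫ x, G1 P θ a (W w a t) x ∂ν) t := by
  have h := deriv_int (ν := ν) (h := fun t x => S0 P (W w a t) x ^ (-θ))
    (h' := fun t x => -θ * G1 P θ a (W w a t) x) (t0 := t)
    (B := θ * (AA a * (Real.exp (-(AA w + (|t| + 1) * AA a)) * c) ^ (-θ)))
    (fun t => pow_meas hP θ _) (fun t => (G1_meas hP θ a _).const_mul _)
    (B0 := (Real.exp (-(AA w + (|t| + 1) * AA a)) * c) ^ (-θ))
    (fun x => pow_bd hP0 hc hP1 hθ (fun j => W_bound w a (ball_self t) j) x)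
    (fun s hs x => by
      rw [abs_mul, abs_neg, abs_of_pos hθ]
      exact mul_le_mul_of_nonneg_left
        (G1_bd hP0 hc hP1 hθ a (fun j => W_bound w a hs j) x) hθ.le)
    (fun s x => pow_deriv hP0 hc hP1 θ w a x s)
  rw [integral_const_mul] at h
  exact h

lemma G1_deriv (hP : ∀ j, Measurable (P j)) (hP0 : ∀ j x, 0 ≤ P j x) {c : ℝ} (hc : 0 < c)
    (hP1 : ∀ x, c ≤ ∑ j, P j x) {θ : ℝ} (hθ : 0 < θ) (w a : Fin N → ℝ) (t : ℝ) :
    HasDerivAt (fun t => ∫ x, G1 P θ a (W w a t) x ∂ν)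
      ((∫ x, G3 P θ a (W w a t) x ∂ν) - θ * ∫ x, G2 P θ a (W w a t) x ∂ν) t := by
  set K : ℝ := (Real.exp (-(AA w + (|t| + 1) * AA a)) * c) ^ (-θ) with hK
  have h := deriv_int (ν := ν) (h := fun t x => G1 P θ a (W w a t) x)
    (h' := fun t x => G3 P θ a (W w a t) x - θ * G2 P θ a (W w a t) x) (t0 := t)
    (B := (AA a ^ 2 + AA a ^ 2) * K + θ * (AA a ^ 2 * K))
    (fun t => G1_meas hP θ a _) (fun t => (G3_meas hP θ a _).sub ((G2_meas hP θ a _).const_mul _))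
    (B0 := AA a * K)
    (fun x => G1_bd hP0 hc hP1 hθ a (fun j => W_bound w a (ball_self t) j) x)
    (fun s hs x => by
      refine (abs_sub _ _).trans (add_le_add
        (G3_bd hP0 hc hP1 hθ a (fun j => W_bound w a hs j) x) ?_)
      rw [abs_mul, abs_of_pos hθ]
      exact mul_le_mul_of_nonneg_left
        (G2_bd hP0 hc hP1 hθ a (fun j => W_bound w a hs j) x) hθ.le)
    (fun s x => pow_deriv2 hP0 hc hP1 θ w a x s)
  have hi2 : Integrable (G2 P θ a (W w a t)) ν := int_of_bd (G2_meas hP θ a _)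
    (fun x => G2_bd hP0 hc hP1 hθ a (fun j => W_bound w a (ball_self t) j) x)
  have hi3 : Integrable (G3 P θ a (W w a t)) ν := int_of_bd (G3_meas hP θ a _)
    (fun x => G3_bd hP0 hc hP1 hθ a (fun j => W_bound w a (ball_self t) j) x)
  rw [integral_sub hi3 (hi2.const_mul θ), integral_const_mul] at h
  exact h

lemma g_pos (hP : ∀ j, Measurable (P j)) (hP0 : ∀ j x, 0 ≤ P j x) {c c' : ℝ} (hc : 0 < c)
    (hP1 : ∀ x, c ≤ ∑ j, P j x) {θ : ℝ} (hθ : 0 < θ) (w : Fin N → ℝ) : 0 < g P ν θ w := by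
  unfold g
  have hi : Integrable (fun x => S0 P w x ^ (-θ)) ν := int_of_bd (pow_meas hP θ w)
    (fun x => pow_bd hP0 hc hP1 hθ (fun j => abs_le_AA w j) x)
  rw [integral_pos_iff_support_of_nonneg
    (fun x => Real.rpow_nonneg (S0_pos hP0 hc hP1 w x).le _) hi]
  have : Function.support (fun x => S0 P w x ^ (-θ)) = Set.univ := by
    ext x
    simp only [Function.mem_support, Set.mem_univ, iff_true]
    exact (Real.rpow_pos_of_pos (S0_pos hP0 hc hP1 w x) _).ne'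
  rw [this]
  simp

end main

end D3b

open D3b in
/-- Module D3, abstract part: convexity from a variance inequality -/
theorem convex_of_var {X : Type*} [MeasurableSpace X] {ν : Measure X} [IsProbabilityMeasure ν]
    {N : ℕ} {P : Fin N → X → ℝ} (hP : ∀ j, Measurable (P j)) (hP0 : ∀ j x, 0 ≤ P j x)
    {c c' : ℝ} (hc : 0 < c) (hP1 : ∀ x, c ≤ ∑ j, P j x) (hP2 : ∀ x, ∑ j, P j x ≤ c') {θ : ℝ}
    (hθ : 0 < θ)
    (hvar : ∀ w a : Fin N → ℝ,
      θ * ((∫ x, ((∑ j, a j * (Real.exp (w j) * P j x)) / ∑ j, Real.exp (w j) * P j x) ^ 2 *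
          (∑ j, Real.exp (w j) * P j x) ^ (-θ) ∂ν) *
          (∫ x, (∑ j, Real.exp (w j) * P j x) ^ (-θ) ∂ν) -
          (∫ x, ((∑ j, a j * (Real.exp (w j) * P j x)) / ∑ j, Real.exp (w j) * P j x) *
          (∑ j, Real.exp (w j) * P j x) ^ (-θ) ∂ν) ^ 2)
        ≤ (∫ x, ((∑ j, a j ^ 2 * (Real.exp (w j) * P j x)) / (∑ j, Real.exp (w j) * P j x) -
          ((∑ j, a j * (Real.exp (w j) * P j x)) / ∑ j, Real.exp (w j) * P j x) ^ 2) *
          (∑ j, Real.exp (w j) * P j x) ^ (-θ) ∂ν) *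
          (∫ x, (∑ j, Real.exp (w j) * P j x) ^ (-θ) ∂ν)) :
    ConvexOn ℝ univ (fun w : Fin N → ℝ =>
      -Real.log (∫ x, (∑ j, Real.exp (w j) * P j x) ^ (-θ) ∂ν)) := by
  have hvar' : ∀ w a : Fin N → ℝ,
      θ * ((∫ x, G2 P θ a w x ∂ν) * g P ν θ w - (∫ x, G1 P θ a w x ∂ν) ^ 2)
        ≤ (∫ x, G3 P θ a w x ∂ν) * g P ν θ w := hvar
  have hline : ∀ w a : Fin N → ℝ, ConvexOn ℝ univ
      (fun t : ℝ => -Real.log (g P ν θ (W w a t))) := by
    intro w a
    have hgp : ∀ t, 0 < g P ν θ (W w a t) := fun t => g_pos (c' := c') hP hP0 hc hP1 hθ _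
    have hd1 : ∀ t, HasDerivAt (fun t : ℝ => -Real.log (g P ν θ (W w a t)))
        (θ * (∫ x, G1 P θ a (W w a t) x ∂ν) / g P ν θ (W w a t)) t := by
      intro t
      have h := ((g_deriv (ν := ν) hP hP0 hc hP1 hθ w a t).log (hgp t).ne').neg
      refine h.congr_deriv ?_
      ring
    have hd2 : ∀ t, HasDerivAt
        (fun t : ℝ => θ * (∫ x, G1 P θ a (W w a t) x ∂ν) / g P ν θ (W w a t))
        ((θ * ((∫ x, G3 P θ a (W w a t) x ∂ν) - θ * ∫ x, G2 P θ a (W w a t) x ∂ν) *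
            g P ν θ (W w a t) -
          θ * (∫ x, G1 P θ a (W w a t) x ∂ν) * (-θ * ∫ x, G1 P θ a (W w a t) x ∂ν)) /
          g P ν θ (W w a t) ^ 2) t := by
      intro t
      exact ((G1_deriv (ν := ν) hP hP0 hc hP1 hθ w a t).const_mul θ).div
        (g_deriv (ν := ν) hP hP0 hc hP1 hθ w a t) (hgp t).ne'
    have e1 : deriv (fun t : ℝ => -Real.log (g P ν θ (W w a t)))
        = fun t : ℝ => θ * (∫ x, G1 P θ a (W w a t) x ∂ν) / g P ν θ (W w a t) := by
      funext t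
      exact (hd1 t).deriv
    refine convexOn_univ_of_deriv2_nonneg (fun t => (hd1 t).differentiableAt) ?_ ?_
    · rw [e1]
      exact fun t => (hd2 t).differentiableAt
    · intro t
      rw [Function.iterate_succ, Function.iterate_one, Function.comp_apply, e1, (hd2 t).deriv]
      apply div_nonneg _ (sq_nonneg _)
      have h := hvar' (W w a t) a
      have h2 := mul_le_mul_of_nonneg_left h hθ.le
      nlinarith [h2]
  refine ⟨convex_univ, ?_⟩
  intro x _ y _ p q hp hq hpq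
  have h := (hline x (fun j => y j - x j)).2 (mem_univ (0 : ℝ)) (mem_univ (1 : ℝ)) hp hq hpq
  have e0 : W x (fun j => y j - x j) 0 = x := by
    funext j
    simp [W]
  have e1 : W x (fun j => y j - x j) 1 = y := by
    funext j
    simp [W]
  have e2 : W x (fun j => y j - x j) (p • (0 : ℝ) + q • (1 : ℝ)) = p • x + q • y := by
    funext j
    simp only [W, smul_eq_mul, Pi.add_apply, Pi.smul_apply]
    have : p = 1 - q := by linarith
    rw [this]
    ring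
  simp only [e0, e1, e2] at h
  exact h

end Pool.Agent.helper63.NU
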