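import Pool.Agent.helper63.NU.Defs4

set_option autoImplicit false

/-!
# MP_737c0a_gt, module M0: Jacobians of projective transformations in the affine charts
-/

open MeasureTheory Filter Topology Set
open scoped ContDiff Manifold Matrix ENNReal ComplexOrder

noncomputable section

namespace Pool.Agent.helper63.NU

variable {n : ℕ}

namespace M0h

theorem mulVec_ins (A : Matrix (Fin (n + 1)) (Fin (n + 1)) ℂ) (i : Fin (n + 1)) (y : E n)
    (l : Fin (n + 1)) :
    (A.mulVec (ins i y)) l = A l i + ∑ k, A l (i.succAbove k) * y k := by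
  simp only [Matrix.mulVec, dotProduct]
  rw [Fin.sum_univ_succAbove _ i]
  simp [ins]

theorem hasFDerivAt_mulVec_ins (A : Matrix (Fin (n + 1)) (Fin (n + 1)) ℂ) (i l : Fin (n + 1))
    (y : E n) :
    HasFDerivAt (fun y : E n => (A.mulVec (ins i y)) l)
      (∑ k, A l (i.succAbove k) • (ContinuousLinearMap.proj k : E n →L[ℂ] ℂ)) y := by
  simp only [mulVec_ins]
  refine HasFDerivAt.const_add _ (HasFDerivAt.fun_sum fun k _ => ?_)
  exact ((ContinuousLinearMap.proj k : E n →L[ℂ] ℂ).hasFDerivAt).const_mul _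

/-- the Jacobian matrix of `pmap` -/
def J (A : Matrix (Fin (n + 1)) (Fin (n + 1)) ℂ) (i i' : Fin (n + 1)) (y : E n) :
    Matrix (Fin n) (Fin n) ℂ :=
  Matrix.of fun j k => (A (i'.succAbove j) (i.succAbove k) * (A.mulVec (ins i y)) i' -
    (A.mulVec (ins i y)) (i'.succAbove j) * A i' (i.succAbove k)) / (A.mulVec (ins i y)) i' ^ 2

theorem hasFDerivAt_pmap (A : Matrix (Fin (n + 1)) (Fin (n + 1)) ℂ) (i i' : Fin (n + 1)) (y : E n)
    (h : (A.mulVec (ins i y)) i' ≠ 0) :
    HasFDerivAt (pmap A i i') (LinearMap.toContinuousLinearMap (Matrix.toLin' (J A i i' y))) y := by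
  rw [hasFDerivAt_pi']
  intro j
  have h1 := hasFDerivAt_mulVec_ins A i (i'.succAbove j) y
  have h2 := hasFDerivAt_mulVec_ins A i i' y
  have h3 := h1.mul ((hasDerivAt_inv h).comp_hasFDerivAt y h2)
  have h4 : (fun x => pmap A i i' x j) = (fun y : E n => (A.mulVec (ins i y)) (i'.succAbove j)) *
      ((fun z => z⁻¹) ∘ fun y : E n => (A.mulVec (ins i y)) i') := by
    funext z
    simp [pmap, div_eq_mul_inv]
  rw [h4]
  refine h3.congr_fderiv ?_
  ext v
  simp only [ContinuousLinearMap.comp_apply,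
    ContinuousLinearMap.proj_apply, LinearMap.coe_toContinuousLinearMap', Matrix.toLin'_apply,
    add_apply, smul_apply,
    sum_apply, smul_eq_mul, Function.comp_apply]
  have h5 : ((J A i i' y) *ᵥ v) j = ∑ k, (A (i'.succAbove j) (i.succAbove k) *
      (A.mulVec (ins i y)) i' - (A.mulVec (ins i y)) (i'.succAbove j) * A i' (i.succAbove k)) /
      (A.mulVec (ins i y)) i' ^ 2 * v k := rfl
  rw [h5]
  generalize (A.mulVec (ins i y)) i' = Q at h ⊢
  generalize (A.mulVec (ins i y)) (i'.succAbove j) = P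
  rw [Finset.mul_sum, Finset.mul_sum, Finset.mul_sum, ← Finset.sum_add_distrib]
  refine Finset.sum_congr rfl fun k _ => ?_
  field_simp
  ring

theorem fderiv_pmap (A : Matrix (Fin (n + 1)) (Fin (n + 1)) ℂ) (i i' : Fin (n + 1)) (y : E n)
    (h : (A.mulVec (ins i y)) i' ≠ 0) : (fderiv ℂ (pmap A i i') y).det = (J A i i' y).det := by
  rw [(hasFDerivAt_pmap A i i' y h).fderiv]
  show LinearMap.det (Matrix.toLin' (J A i i' y)) = _
  exact LinearMap.det_toLin' _

theorem det_J (A : Matrix (Fin (n + 1)) (Fin (n + 1)) ℂ) (i i' : Fin (n + 1)) (y : E n)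
    (h : (A.mulVec (ins i y)) i' ≠ 0) :
    (-1) ^ ((i' : ℕ) + i) * ((J A i i' y).det * (A.mulVec (ins i y)) i' ^ (n + 1)) = A.det := by
  set u := A.mulVec (ins i y) with hu
  have h1 : (A.updateCol i u).det = A.det := by
    rw [← Matrix.cramer_apply, Matrix.cramer_eq_adjugate_mulVec, hu, Matrix.mulVec_mulVec,
      Matrix.adjugate_mul, Matrix.smul_mulVec, Matrix.one_mulVec]
    simp [ins]
  set B := A.updateCol i u with hB
  set B' : Matrix (Fin (n + 1)) (Fin (n + 1)) ℂ := Matrix.of fun l m =>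
    if l = i' then B l m else B l m - u l / u i' * B i' m with hB'
  have h2 : B.det = B'.det := by
    refine Matrix.det_eq_of_forall_row_eq_smul_add_const
      (fun l => if l = i' then 0 else u l / u i') i' (by simp) fun l m => ?_
    by_cases hl : l = i'
    · simp [hB', hl]
    · simp [hB', hl]
  have hBi : ∀ l, B l i = u l := fun l => by simp [hB]
  have hBs : ∀ l k, B l (i.succAbove k) = A l (i.succAbove k) := fun l k => by
    simp [hB, Fin.succAbove_ne]
  have h3 : ∀ l, l ≠ i' → B' l i = 0 := by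
    intro l hl
    simp only [hB', Matrix.of_apply, if_neg hl, hBi]
    field_simp
    ring
  have h4 : B' i' i = u i' := by simp [hB', hBi]
  have h5 : B'.submatrix i'.succAbove i.succAbove = u i' • J A i i' y := by
    ext j k
    simp only [Matrix.submatrix_apply, hB', Matrix.of_apply, if_neg (Fin.succAbove_ne i' j), hBs,
      Matrix.smul_apply, smul_eq_mul, J, ← hu]
    field_simp
  rw [← h1, h2, Matrix.det_succ_column B' i, Finset.sum_eq_single i']
  · rw [h4, h5, Matrix.det_smul, Fintype.card_fin]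
    ring
  · intro l _ hl
    rw [h3 l hl]
    ring
  · intro h
    exact absurd (Finset.mem_univ _) h

theorem isOpen_ins (i i' : Fin (n + 1)) : IsOpen {y : E n | ins i y i' ≠ 0} :=
  isOpen_ne_fun ((contDiff_pi.1 (CP.contDiff_ins (𝕜 := ℂ) (m := 0) i) i').continuous)
    continuous_const

end M0h

theorem det_pmap (A : Matrix (Fin (n + 1)) (Fin (n + 1)) ℂ) (i i' : Fin (n + 1)) (y : E n)
    (h : (A.mulVec (ins i y)) i' ≠ 0) :
    ‖(fderiv ℂ (pmap A i i') y).det‖ * ‖(A.mulVec (ins i y)) i'‖ ^ (n + 1) = ‖A.det‖ := by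
  rw [M0h.fderiv_pmap A i i' y h, ← M0h.det_J A i i' y h, norm_mul, norm_mul, norm_pow, norm_pow]
  simp

theorem pmap_one (i i' : Fin (n + 1)) (y : E n) (h : ins i y i' ≠ 0) :
    pmap 1 i i' y = CP.chart i' ((CP.chart i).symm y) := by
  funext j
  rw [CP.chart_trans i i' y h j]
  simp only [pmap, Matrix.one_mulVec]
  rfl

theorem norm_jac_CP (i i' : Fin (n + 1)) (y : E n) (h : ins i y i' ≠ 0) :
    ‖jac (CP.chart i) (CP.chart i') y‖ * ‖ins i y i'‖ ^ (n + 1) = 1 := by
  have h1 : (fun z : E n => CP.chart i' ((CP.chart i).symm z)) =ᶠ[𝓝 y] pmap 1 i i' := by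
    filter_upwards [(M0h.isOpen_ins i i').mem_nhds h] with z hz
    exact (pmap_one i i' z hz).symm
  have h2 := det_pmap 1 i i' y (by rwa [Matrix.one_mulVec])
  rw [Matrix.one_mulVec, Matrix.det_one, norm_one] at h2
  rw [← h2]
  unfold jac
  rw [h1.fderiv_eq]

theorem M0h.log_jac (i i' : Fin (n + 1)) (y : E n) (h : ins i y i' ≠ 0) :
    Real.log (‖jac (CP.chart i) (CP.chart i') y‖ ^ 2) =
      -((n + 1) * Real.log (‖ins i y i'‖ ^ 2)) := by
  have h1 := norm_jac_CP i i' y h
  have h2 : 0 < ‖ins i y i'‖ := norm_pos_iff.2 h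
  have h3 : ‖jac (CP.chart i) (CP.chart i') y‖ = (‖ins i y i'‖ ^ (n + 1))⁻¹ :=
    eq_inv_of_mul_eq_one_left h1
  rw [h3, Real.log_pow, Real.log_inv, Real.log_pow, Real.log_pow]
  push_cast
  ring

theorem weight_CP {ψ : Fam n (CP n) ℝ} (hψ : IsWeight 1 ψ) (i i' : Fin (n + 1)) (y : E n)
    (h : ins i y i' ≠ 0) : ψ (CP.chart i) y = ψ (CP.chart i') (pmap 1 i i' y)
      + (n + 1) * Real.log (‖ins i y i'‖ ^ 2) := by
  have hy : y ∈ (CP.chart i : Ch n (CP n)).target := mem_univ _
  have hx : (CP.chart i).symm y ∈ (CP.chart i : Ch n (CP n)).source :=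
    (CP.chart i).map_target hy
  have hx' : (CP.chart i).symm y ∈ (CP.chart i' : Ch n (CP n)).source :=
    (CP.mem_source_chart i' _ (CP.ins_ne i y)).2 h
  have h1 := hψ.trans (CP.chart i) (mem_range_self _) (CP.chart i') (mem_range_self _)
    ((CP.chart i).symm y) ⟨hx, hx'⟩
  rw [(CP.chart i).right_inv hy, M0h.log_jac i i' y h, ← pmap_one i i' y h] at h1
  rw [h1]
  push_cast
  ring

theorem isWeight_CP {ψ : Fam n (CP n) ℝ} (hs : ∀ i, ContDiff ℝ ∞ (ψ (CP.chart i)))
    (h : ∀ i i' y, ins i y i' ≠ 0 → ψ (CP.chart i) y = ψ (CP.chart i') (pmap 1 i i' y)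
      + (n + 1) * Real.log (‖ins i y i'‖ ^ 2)) : IsWeight 1 ψ := by
  refine ⟨?_, ?_⟩
  · rintro _ ⟨i, rfl⟩
    exact (hs i).contDiffOn
  · rintro _ ⟨i, rfl⟩ _ ⟨i', rfl⟩ x ⟨hx, hx'⟩
    have h0 : (CP.chart i).symm (CP.chart i x) = x := (CP.chart i).left_inv hx
    have h1 : ins i (CP.chart i x) i' ≠ 0 := by
      have := (CP.mem_source_chart i' _ (CP.ins_ne i (CP.chart i x))).1
        (by rw [← CP.chart_symm, h0]; exact hx')
      exact this
    have h2 := h i i' _ h1
    rw [pmap_one i i' _ h1, h0] at h2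
    rw [h2, M0h.log_jac i i' _ h1]
    push_cast
    ring

end Pool.Agent.helper63.NU
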